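import Pool.Agent.W770.PC.Stms

set_option autoImplicit false

open MeasureTheory Set Filter Topology Pool.Agent.W770.PC
open scoped ENNReal NNReal

namespace Pool.Agent.W641.PC

lemma d1ph (h1 : S_der) {F h : ℝ × ℝ → ℝ} (hF : ContDiff ℝ (⊤ : ℕ∞) F)
    (hh : ContDiff ℝ (⊤ : ℕ∞) h) (t : ℝ) : d1 (ph F h t) = ph (d1 F) (d1 h) t := by
  obtain ⟨_, _, _, _, _, _, hp, _, _⟩ := h1 F hF
  funext y
  exact (hp h hh t y).1

lemma d2ph (h1 : S_der) {F h : ℝ × ℝ → ℝ} (hF : ContDiff ℝ (⊤ : ℕ∞) F)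
    (hh : ContDiff ℝ (⊤ : ℕ∞) h) (t : ℝ) : d2 (ph F h t) = ph (d2 F) (d2 h) t := by
  obtain ⟨_, _, _, _, _, _, hp, _, _⟩ := h1 F hF
  funext y
  exact (hp h hh t y).2

lemma second (h1 : S_der) {F h : ℝ × ℝ → ℝ} (hF : ContDiff ℝ (⊤ : ℕ∞) F)
    (hh : ContDiff ℝ (⊤ : ℕ∞) h) (t : ℝ) :
    d1 (d1 (ph F h t)) = ph (d1 (d1 F)) (d1 (d1 h)) t ∧
    d1 (d2 (ph F h t)) = ph (d1 (d2 F)) (d1 (d2 h)) t ∧
    d2 (d2 (ph F h t)) = ph (d2 (d2 F)) (d2 (d2 h)) t := by
  have a1 := (h1 F hF).1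
  have a2 := (h1 F hF).2.1
  have b1 := (h1 h hh).1
  have b2 := (h1 h hh).2.1
  refine ⟨?_, ?_, ?_⟩
  · rw [d1ph h1 hF hh, d1ph h1 a1 b1]
  · rw [d2ph h1 hF hh, d1ph h1 a2 b2]
  · rw [d2ph h1 hF hh, d2ph h1 a2 b2]

lemma cont_ph {F h : ℝ × ℝ → ℝ} (hF : Continuous F) (hh : Continuous h) :
    Continuous (fun q : ℝ × (ℝ × ℝ) => ph F h q.1 q.2) := by
  unfold ph
  exact (hF.comp continuous_snd).add (continuous_fst.mul (hh.comp continuous_snd))

lemma cont_hess (h1 : S_der) {F h : ℝ × ℝ → ℝ} (hF : ContDiff ℝ (⊤ : ℕ∞) F)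
    (hh : ContDiff ℝ (⊤ : ℕ∞) h) :
    Continuous (fun q : ℝ × (ℝ × ℝ) => hess (ph F h q.1) q.2) ∧
    Continuous (fun q : ℝ × (ℝ × ℝ) => |det2 (ph F h q.1) q.2|) := by
  have a1 := (h1 F hF).1
  have a2 := (h1 F hF).2.1
  have b1 := (h1 h hh).1
  have b2 := (h1 h hh).2.1
  have c11 := cont_ph ((h1 _ a1).1.continuous) ((h1 _ b1).1.continuous)
  have c12 := cont_ph ((h1 _ a2).1.continuous) ((h1 _ b2).1.continuous)
  have c22 := cont_ph ((h1 _ a2).2.1.continuous) ((h1 _ b2).2.1.continuous)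
  constructor
  · have e : (fun q : ℝ × (ℝ × ℝ) => hess (ph F h q.1) q.2) = fun q =>
        |ph (d1 (d1 F)) (d1 (d1 h)) q.1 q.2| + |ph (d1 (d2 F)) (d1 (d2 h)) q.1 q.2| +
          |ph (d2 (d2 F)) (d2 (d2 h)) q.1 q.2| := by
      funext q
      obtain ⟨e1, e2, e3⟩ := second h1 hF hh q.1
      unfold hess
      rw [e1, e2, e3]
    rw [e]
    exact (c11.abs.add c12.abs).add c22.abs
  · have e : (fun q : ℝ × (ℝ × ℝ) => |det2 (ph F h q.1) q.2|) = fun q =>
        |ph (d1 (d1 F)) (d1 (d1 h)) q.1 q.2 * ph (d2 (d2 F)) (d2 (d2 h)) q.1 q.2 -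
          ph (d1 (d2 F)) (d1 (d2 h)) q.1 q.2 ^ 2| := by
      funext q
      obtain ⟨e1, e2, e3⟩ := second h1 hF hh q.1
      unfold det2
      rw [e1, e2, e3]
    rw [e]
    exact ((c11.mul c22).sub (c12.pow 2)).abs

lemma compact_cell (a : ℕ) (k : ℕ × ℕ) : IsCompact (cell a k) :=
  isCompact_Icc.prod isCompact_Icc

lemma cont_NN (h1 : S_der) {F h : ℝ × ℝ → ℝ} (hF : ContDiff ℝ (⊤ : ℕ∞) F)
    (hh : ContDiff ℝ (⊤ : ℕ∞) h) (a : ℕ) (k : ℕ × ℕ) :
    Continuous (fun t : ℝ => NN (ph F h t) a k) := by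
  unfold NN
  exact continuous_parametric_integral_of_continuous
    (f := fun (t : ℝ) (y : ℝ × ℝ) => hess (ph F h t) y) (cont_hess h1 hF hh).1 (compact_cell a k)

lemma cont_DD (h1 : S_der) {F h : ℝ × ℝ → ℝ} (hF : ContDiff ℝ (⊤ : ℕ∞) F)
    (hh : ContDiff ℝ (⊤ : ℕ∞) h) (a : ℕ) (k : ℕ × ℕ) :
    Continuous (fun t : ℝ => DD (ph F h t) a k) := by
  unfold DD
  exact continuous_parametric_integral_of_continuous
    (f := fun (t : ℝ) (y : ℝ × ℝ) => |det2 (ph F h t) y|) (cont_hess h1 hF hh).2 (compact_cell a k)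

lemma meas_Nf (h1 : S_der) (h2 : S_gg) {F h : ℝ × ℝ → ℝ} (hF : ContDiff ℝ (⊤ : ℕ∞) F)
    (hh : ContDiff ℝ (⊤ : ℕ∞) h) (a : ℕ) :
    Measurable (fun q : ℝ × (ℝ × ℝ) => Nf (ph F h q.1) a q.2) := by
  classical
  unfold Nf
  simp only [Finset.sum_filter]
  refine Finset.measurable_fun_sum _ fun k _ => ?_
  refine Measurable.ite ?_ ?_ measurable_const
  · exact measurableSet_lt measurable_const
      ((cont_NN h1 hF hh a k).measurable.comp measurable_fst)
  · exact ((h2.1 a k).continuous.measurable).comp measurable_snd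

lemma meas_gg (h1 : S_der) (h2 : S_gg) {F h : ℝ × ℝ → ℝ} (hF : ContDiff ℝ (⊤ : ℕ∞) F)
    (hh : ContDiff ℝ (⊤ : ℕ∞) h) (a : ℕ) :
    Measurable (fun q : ℝ × (ℝ × ℝ) => gg (ph F h q.1) a q.2) := by
  unfold gg
  exact Finset.measurable_fun_prod _ fun a' _ => meas_Nf h1 h2 hF hh a'

lemma meas_J (h1 : S_der) (h2 : S_gg) {F h : ℝ × ℝ → ℝ} (hF : ContDiff ℝ (⊤ : ℕ∞) F)
    (hh : ContDiff ℝ (⊤ : ℕ∞) h) (ψ : ℝ × ℝ → ℂ) (hψ : Continuous ψ) (a : ℕ) (k : ℕ × ℕ) :
    Measurable (fun z : (ℝ × ℝ) × ℝ => J ψ (ph F h z.2) a k z.1) := by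
  unfold J
  have hm : Measurable (fun w : ((ℝ × ℝ) × ℝ) × (ℝ × ℝ) =>
      ψ w.2 * ((gg (ph F h w.1.2) a w.2 * bet a k w.2 : ℝ) : ℂ) *
        ee (ph F h w.1.2 w.2 + w.1.1.1 * w.2.1 + w.1.1.2 * w.2.2)) := by
    refine Measurable.mul (Measurable.mul ?_ ?_) ?_
    · exact hψ.measurable.comp measurable_snd
    · have hmap : Measurable (fun w : ((ℝ × ℝ) × ℝ) × (ℝ × ℝ) =>
          ((w.1.2, w.2) : ℝ × (ℝ × ℝ))) :=
        (measurable_snd.comp measurable_fst).prodMk measurable_snd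
      have h5 := meas_gg h1 h2 hF hh a
      have h3 : Measurable (fun w : ((ℝ × ℝ) × ℝ) × (ℝ × ℝ) => gg (ph F h w.1.2) a w.2) := by
        have h6 := h5.comp hmap
        exact h6
      have h4 : Measurable (fun w : ((ℝ × ℝ) × ℝ) × (ℝ × ℝ) => bet a k w.2) := by
        have h6 := (h2.1 a k).continuous.measurable
        have h7 : Measurable (fun w : ((ℝ × ℝ) × ℝ) × (ℝ × ℝ) => w.2) := measurable_snd
        have h8 := h6.comp h7
        exact h8
      have h9 := h3.mul h4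
      have h10 := Complex.measurable_ofReal.comp h9
      exact h10
    · have hc : Continuous (fun w : ((ℝ × ℝ) × ℝ) × (ℝ × ℝ) =>
          ph F h w.1.2 w.2 + w.1.1.1 * w.2.1 + w.1.1.2 * w.2.2) := by
        have h3 : Continuous (fun w : ((ℝ × ℝ) × ℝ) × (ℝ × ℝ) => ph F h w.1.2 w.2) :=
          (cont_ph hF.continuous hh.continuous).comp
            ((continuous_snd.comp continuous_fst).prodMk continuous_snd)
        fun_prop
      have he : Continuous ee := by unfold ee; fun_prop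
      exact (he.comp hc).measurable
  exact (StronglyMeasurable.integral_prod_right' (ν := (volume : Measure (ℝ × ℝ)))
    hm.stronglyMeasurable).measurable

theorem meas_thm (h1 : S_der) (h2 : S_gg) : S_meas := by
  classical
  intro C B ψ F h hA hF hh
  refine ⟨cont_NN h1 hF hh, cont_DD h1 hF hh,
    meas_J h1 h2 hF hh ψ hA.sm.continuous, ?_, ?_⟩
  · intro a b
    unfold uu KK
    simp only [Finset.sum_filter]
    refine Finset.measurable_fun_sum _ fun k _ => ?_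
    refine Measurable.ite ?_ (meas_J h1 h2 hF hh ψ hA.sm.continuous a k) measurable_const
    have hN : Measurable (fun z : (ℝ × ℝ) × ℝ => NN (ph F h z.2) a k) :=
      (cont_NN h1 hF hh a k).measurable.comp measurable_snd
    have hD : Measurable (fun z : (ℝ × ℝ) × ℝ => DD (ph F h z.2) a k) :=
      (cont_DD h1 hF hh a k).measurable.comp measurable_snd
    unfold cls
    refine (measurableSet_le hN measurable_const).inter
      ((measurableSet_le measurable_const (hN.const_mul C)).inter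
        ((measurableSet_le hD measurable_const).inter ?_))
    by_cases hb : b = 0
    · simp only [hb, true_or]
      exact MeasurableSet.univ
    · simp only [hb, false_or]
      exact measurableSet_lt measurable_const (hD.const_mul 2)
  · unfold uz FL
    simp only [Finset.sum_filter]
    refine Finset.measurable_fun_sum _ fun k _ => ?_
    refine Measurable.ite ?_ (meas_J h1 h2 hF hh ψ hA.sm.continuous 0 k) measurable_const
    exact measurableSet_le ((cont_NN h1 hF hh 0 k).measurable.comp measurable_snd)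
      measurable_const

end Pool.Agent.W641.PC
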